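import Mathlib
import Pool.Agent.Helper415.RC13

/-!
The largest function `F_m` of the relaxed convexity class `𝓕_m`: two-term asymptotics inside `(1/4, 3/4)`,
the limit function as `m → ∞`, the exact order `1 / m` of the error, and exact values.

On `[1/4 + ε, 3/4 - ε]` one has `(1 - ε) lim {m x} ≤ m (F_m x - 1) ≤ lim {m x} + 4 / m` for `m ≥ M(ε)`: the
second term of `F_m` is a periodic rescaled copy of the limit function itself.

`lim x = min (φ x) (φ (1 - x))` with `φ x = inf_{n ≥ 1} n x ^ (1 - 1 / n)` belongs to every class, and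
`F_m ≤ lim + 4 / m` on `[0, 1]`; moreover `F_m` is computed exactly at the points `k / m` in
`[1/4, 3/4]` and at the points `(k / m) ^ n` and `1 - (k / m) ^ n` with
`(n / (n + 1)) ^ (n + 1) ≤ k / m ≤ ((n - 1) / n) ^ (n - 1)`.
Near `1 / 2` one has `1 + ‖m x‖ / (3 m) ≤ F_m x ≤ 1 + (lim {m x} + 4 / m) / m`.

Idea. Upper bound: with `k` points at `y` and `m - k` points at `0` one gets
`f (k y / m) ≤ (k / m) f y + y`; iterate. Lower bound: `φ` is concave, and for `0 ≤ a < b ≤ 1`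
`φ ((1 - λ) a + λ b) ≤ (1 - λ) φ a + λ φ b + (b - a)`. For `a = 0` this is the inequality between the
arithmetic and the geometric mean; for `a > 0` one compares with `a = 0` and with the tangents at `a`
and at `b`, the worst case being governed by `(A - 2) ^ 2 (3 A ^ 2 + 4 A + 4) ≥ 0`. Inside `(1/4, 3/4)` the
bump `(1 - ε) lim {m x} / m` may be added to `lim`: the periodic extension of `lim` is subadditive
and satisfies the defining inequality of the class on the whole line, and the inequality for `lim`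
has room to spare when the points do not all lie in `[1/4, 3/4]`.
-/

set_option autoImplicit false

open Pool.Agent.Helper415.RC

namespace Pool.Agent.Results.MP_13a5e6_an.PlateauSecondOrder

/-- the values at `x` of the members of `𝓕_m` -/
def values (m : ℕ) (x : ℝ) : Set ℝ := {y | ∃ f : ℝ → ℝ, InClass m f ∧ y = f x}

/-- the values at `x` of the members of `𝓕_m` which are bounded above -/
def valuesB (m : ℕ) (x : ℝ) : Set ℝ := {y | ∃ f : ℝ → ℝ, InClassB m f ∧ y = f x}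

lemma greatest {m : ℕ} (hm : 1 ≤ m) {x v : ℝ} (hv : lim x = v)
    (hub : ∀ f, InClass m f → f x ≤ v) : IsGreatest (values m x) v ∧ IsGreatest (valuesB m x) v := by
  refine ⟨⟨⟨lim, lim_inClass m hm, hv.symm⟩, ?_⟩, ⟨⟨lim, lim_inClassB m hm, hv.symm⟩, ?_⟩⟩
  · rintro _ ⟨f, hf, rfl⟩; exact hub f hf
  · rintro _ ⟨f, hf, rfl⟩; exact hub f hf.1

/-- **Main result.** -/
theorem result :
    (∀ ε : ℝ, 0 < ε → ∃ M : ℕ, ∀ m : ℕ, M ≤ m → ∀ x : ℝ, 1 / 4 + ε ≤ x → x ≤ 3 / 4 - ε →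
      ∃ v : ℝ, IsLUB (valuesB m x) v ∧
        1 + (1 - ε) * lim (Int.fract (m * x)) / m ≤ v ∧
        v ≤ 1 + (lim (Int.fract (m * x)) + 4 / m) / m) ∧
    (∀ m : ℕ, 2 ≤ m → InClassB m lim) ∧
    (∀ m : ℕ, 4 ≤ m → ∀ x ∈ Set.Icc (0:ℝ) 1,
      ∃ v : ℝ, IsLUB (valuesB m x) v ∧ lim x ≤ v ∧ v ≤ lim x + 4 / m) ∧
    (∀ m : ℕ, 20 ≤ m → ∃ x ∈ Set.Icc (0:ℝ) 1, ∃ v : ℝ, IsLUB (valuesB m x) v ∧
      lim x + 1 / (6 * m) ≤ v) ∧
    (∀ m : ℕ, 10 ≤ m → ∀ x : ℝ, |x - 1 / 2| ≤ 1 / 20 →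
      ∃ v : ℝ, IsLUB (valuesB m x) v ∧ 1 + nn (m * x) / (3 * m) ≤ v ∧
        v ≤ 1 + (lim (Int.fract (m * x)) + 4 / m) / m) ∧
    (∀ m k : ℕ, 2 ≤ m → 1 / 4 ≤ (k:ℝ) / m → (k:ℝ) / m ≤ 3 / 4 →
      IsGreatest (values m ((k:ℝ) / m)) 1 ∧ IsGreatest (valuesB m ((k:ℝ) / m)) 1) ∧
    (∀ m n k : ℕ, 2 ≤ m → 2 ≤ n → ((n:ℝ) / ((n:ℝ) + 1)) ^ (n + 1) ≤ (k:ℝ) / m →
      (k:ℝ) / m ≤ (((n:ℝ) - 1) / n) ^ (n - 1) →
      (IsGreatest (values m (((k:ℝ) / m) ^ n)) (n * ((k:ℝ) / m) ^ (n - 1)) ∧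
        IsGreatest (valuesB m (((k:ℝ) / m) ^ n)) (n * ((k:ℝ) / m) ^ (n - 1))) ∧
      (IsGreatest (values m (1 - ((k:ℝ) / m) ^ n)) (n * ((k:ℝ) / m) ^ (n - 1)) ∧
        IsGreatest (valuesB m (1 - ((k:ℝ) / m) ^ n)) (n * ((k:ℝ) / m) ^ (n - 1)))) := by
  have hnear : ∀ m : ℕ, 10 ≤ m → ∀ x : ℝ, |x - 1 / 2| ≤ 1 / 20 →
      ∃ v : ℝ, IsLUB (valuesB m x) v ∧ 1 + nn (m * x) / (3 * m) ≤ v ∧
        v ≤ 1 + (lim (Int.fract (m * x)) + 4 / m) / m := by
    intro m hm x hx
    have hm0 : (0:ℝ) < m := by exact_mod_cast (by omega : 0 < m)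
    have h1 := (abs_le.mp hx).1
    have h2 := (abs_le.mp hx).2
    have hne : (valuesB m x).Nonempty := ⟨_, lim, lim_inClassB m (by omega), rfl⟩
    have hub : ∀ y ∈ valuesB m x, y ≤ 1 + (lim (Int.fract (m * x)) + 4 / m) / m := by
      rintro _ ⟨f, hf, rfl⟩
      have h3 := frac_step (by omega) hf.1 (z := x) ⟨by linarith, by linarith⟩
      have h4 := upper_lim (by omega) hf (x := Int.fract (m * x))
        ⟨Int.fract_nonneg _, (Int.fract_lt_one _).le⟩
      have h5 := div_le_div_of_nonneg_right h4 hm0.le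
      linarith
    refine ⟨sSup (valuesB m x), isLUB_csSup hne ⟨_, hub⟩, ?_, csSup_le hne hub⟩
    apply le_csSup ⟨_, hub⟩
    refine ⟨fun x => lim x + bump m x, bumped_inClassB m (by omega), ?_⟩
    simp only
    rw [bump_eq hm hx, lim_mid (by linarith) (by linarith)]
  refine ⟨?_, fun m hm => lim_inClassB m (by omega), ?_, ?_, hnear, ?_, ?_⟩
  · intro ε hε
    obtain ⟨θ, e, K, M, hθε, hθ0, hK, hM, he0, he4, heε, hKe, hθK, hmM⟩ := params3 hε
    refine ⟨M, fun m hm x hx1 hx2 => ?_⟩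
    obtain ⟨hθm, hKm⟩ := hmM m hm
    have hm0 : (0:ℝ) < m := by exact_mod_cast (by omega : 0 < m)
    have hne : (valuesB m x).Nonempty := ⟨_, lim, lim_inClassB m (by omega), rfl⟩
    have hub : ∀ y ∈ valuesB m x, y ≤ 1 + (lim (Int.fract (m * x)) + 4 / m) / m := by
      rintro _ ⟨f, hf, rfl⟩
      have h3 := frac_step (by omega) hf.1 (z := x) ⟨by linarith, by linarith⟩
      have h4 := upper_lim (by omega) hf (x := Int.fract (m * x))
        ⟨Int.fract_nonneg _, (Int.fract_lt_one _).le⟩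
      have h5 := div_le_div_of_nonneg_right h4 hm0.le
      linarith
    refine ⟨sSup (valuesB m x), isLUB_csSup hne ⟨_, hub⟩, ?_, csSup_le hne hub⟩
    have hmem : lim x + bump3 m θ (1 / (e * m)) (1 / 4 - 2 * e) x ≤ sSup (valuesB m x) := by
      apply le_csSup ⟨_, hub⟩
      refine ⟨_, bumped3_inClassB m K θ (1 / (e * m)) (1 / 4 - 2 * e) e hK (by omega) hθ0
        (by positivity) he0 he4 ?_ hKe hθm hθK hKm, rfl⟩
      have e1 : 1 / (e * (m:ℝ)) * (1 / 4 - e - (1 / 4 - 2 * e)) = 1 / m := by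
        field_simp; ring
      rw [e1]
    have hxr : |x - 1 / 2| ≤ 1 / 4 - 2 * e := by
      rw [abs_le]; constructor <;> linarith
    rw [lim_mid (by linarith) (by linarith), bump3_eq hθ0 hxr] at hmem
    have h4 : 0 ≤ LL (m * x) / m := div_nonneg (LL_nonneg _) (Nat.cast_nonneg _)
    have h5 : (1 - ε) * (LL (m * x) / m) ≤ θ * (LL (m * x) / m) :=
      mul_le_mul_of_nonneg_right hθε h4
    have e2 : (1 - ε) * lim (Int.fract (m * x)) / m = (1 - ε) * (LL (m * x) / m) := by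
      unfold LL; rw [mul_div_assoc]
    rw [e2]; linarith
  · intro m hm x hx
    have hne : (valuesB m x).Nonempty := ⟨_, lim, lim_inClassB m (by omega), rfl⟩
    have hub : ∀ y ∈ valuesB m x, y ≤ lim x + 4 / m := by
      rintro _ ⟨f, hf, rfl⟩
      exact upper_lim hm hf hx
    refine ⟨sSup (valuesB m x), isLUB_csSup hne ⟨_, hub⟩, ?_, csSup_le hne hub⟩
    exact le_csSup ⟨_, hub⟩ ⟨lim, lim_inClassB m (by omega), rfl⟩
  · intro m hm
    have hm0 : (0:ℝ) < m := by exact_mod_cast (by omega : 0 < m)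
    have hm20 : (20:ℝ) ≤ m := by exact_mod_cast hm
    obtain ⟨k, hk⟩ : ∃ k : ℕ, k = m / 2 := ⟨_, rfl⟩
    have hk1 : 2 * k ≤ m := by omega
    have hk2 : m ≤ 2 * k + 1 := by omega
    have hk1' : 2 * (k:ℝ) ≤ m := by exact_mod_cast hk1
    have hk2' : (m:ℝ) ≤ 2 * k + 1 := by exact_mod_cast hk2
    obtain ⟨x, hx⟩ : ∃ x : ℝ, x = (2 * k + 1) / (2 * m) := ⟨_, rfl⟩
    have hxm : (m:ℝ) * x = (2 * k + 1) / 2 := by rw [hx]; field_simp
    have hxa : |x - 1 / 2| ≤ 1 / 20 := by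
      have e : x - 1 / 2 = (2 * k + 1 - m) / (2 * m) := by rw [hx]; field_simp
      rw [e, abs_of_nonneg (div_nonneg (by linarith) (by linarith)), div_le_iff₀ (by linarith)]
      linarith
    obtain ⟨v, hv, hv1, _⟩ := hnear m (by omega) x hxa
    have h1 := (abs_le.mp hxa).1
    have h2 := (abs_le.mp hxa).2
    refine ⟨x, ⟨by linarith, by linarith⟩, v, hv, ?_⟩
    rw [lim_mid (by linarith) (by linarith)]
    have hnn : 1 / 2 ≤ nn (m * x) := by
      unfold nn
      rw [hxm]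
      obtain ⟨z, hz⟩ : ∃ z : ℤ, z = round ((2 * (k:ℝ) + 1) / 2) := ⟨_, rfl⟩
      rw [← hz]
      have e : (2 * (k:ℝ) + 1) / 2 - (z:ℝ) = ((2 * (k:ℤ) + 1 - 2 * z : ℤ) : ℝ) / 2 := by
        push_cast; ring
      rw [e, abs_div, abs_two]
      have h3 : (1:ℝ) ≤ |((2 * (k:ℤ) + 1 - 2 * z : ℤ) : ℝ)| := by
        rw [← Int.cast_abs]
        have : (1:ℤ) ≤ |2 * (k:ℤ) + 1 - 2 * z| := Int.one_le_abs (by omega)
        exact_mod_cast this
      linarith
    have h4 : 1 / (6 * (m:ℝ)) ≤ nn (m * x) / (3 * m) := by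
      rw [div_le_div_iff₀ (by positivity) (by positivity)]
      nlinarith
    linarith
  · intro m k hm h1 h2
    have hm0 : (0:ℝ) < m := by exact_mod_cast (by omega : 0 < m)
    have hk : k ≤ m := by
      rw [div_le_iff₀ hm0] at h2
      have : (k:ℝ) ≤ m := by linarith
      exact_mod_cast this
    apply greatest (by omega) (lim_mid h1 h2)
    intro f hf
    have := exact_up (by omega) hf k hk 0
    simpa using this
  · intro m n k hm hn h1 h2
    have hm0 : (0:ℝ) < m := by exact_mod_cast (by omega : 0 < m)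
    have h0 : 0 < (k:ℝ) / m := lt_of_lt_of_le (by positivity) h1
    have hhalf := window_le_half n hn h2
    have hk : k ≤ m := by
      rw [div_le_iff₀ hm0] at hhalf
      have : (k:ℝ) ≤ m := by linarith
      exact_mod_cast this
    have hv := lim_window n hn h0 h1 h2
    have hup : ∀ f, InClass m f → f (((k:ℝ) / m) ^ n) ≤ n * ((k:ℝ) / m) ^ (n - 1) := by
      intro f hf
      have := exact_up (by omega) hf k hk (n - 1)
      have e : n - 1 + 1 = n := by omega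
      have e2 : ((n - 1 : ℕ):ℝ) + 1 = n := by
        rw [Nat.cast_sub (by omega)]; simp
      rw [e, e2] at this
      exact this
    refine ⟨greatest (by omega) hv hup, greatest (by omega) (by rw [lim_symm]; exact hv) ?_⟩
    intro f hf
    have := hup _ (inClass_symm (by omega) hf)
    exact this

end Pool.Agent.Results.MP_13a5e6_an.PlateauSecondOrder
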