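import Mathlib
import Pool.Agent.Helper415.RC9

/-!
The largest function `F_m` of the relaxed convexity class `𝓕_m`: the limit function as `m → ∞`, the
exact order `1 / m` of the error, exact values, and a finer two-sided bound near `1 / 2`.

`lim x = min (φ x) (φ (1 - x))` with `φ x = inf_{n ≥ 1} n x ^ (1 - 1 / n)` belongs to every class, and
`F_m ≤ lim + 4 / m` on `[0, 1]`; moreover `F_m` is computed exactly at the points `k / m` in
`[1/4, 3/4]` and at the points `(k / m) ^ n` and `1 - (k / m) ^ n` with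
`(n / (n + 1)) ^ (n + 1) ≤ k / m ≤ ((n - 1) / n) ^ (n - 1)`.
Near `1 / 2` one has `1 + ‖m x‖ / (3 m) ≤ F_m x ≤ 1 + (lim {m x} + 4 / m) / m`.

Idea. Upper bound: with `k` points at `y` and `m - k` points at `0` one gets
`f (k y / m) ≤ (k / m) f y + y`; iterate. Lower bound: `φ` is concave, and for `0 ≤ a < b ≤ 1`
`φ ((1 - λ) a + λ b) ≤ (1 - λ) φ a + λ φ b + (b - a)`. For `a = 0` this is the inequality between the
arithmetic and the geometric mean; for `a > 0` one compares with `a = 0` and with the tangents at `a`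
and at `b`, the worst case being governed by `(A - 2) ^ 2 (3 A ^ 2 + 4 A + 4) ≥ 0`. Near `1 / 2` a
Lipschitz bump of size `‖m x‖ / (3 m)` may be added to `lim`.
-/

set_option autoImplicit false

open Pool.Agent.Helper415.RC

namespace Pool.Agent.Results.MP_13a5e6_an.UniformAsymptotics

/-- the values at `x` of the members of `𝓕_m` -/
def values (m : ℕ) (x : ℝ) : Set ℝ := {y | ∃ f : ℝ → ℝ, InClass m f ∧ y = f x}

/-- the values at `x` of the members of `𝓕_m` which are bounded above -/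
def valuesB (m : ℕ) (x : ℝ) : Set ℝ := {y | ∃ f : ℝ → ℝ, InClassB m f ∧ y = f x}

lemma greatest {m : ℕ} (hm : 1 ≤ m) {x v : ℝ} (hv : lim x = v)
    (hub : ∀ f, InClass m f → f x ≤ v) : IsGreatest (values m x) v ∧ IsGreatest (valuesB m x) v := by
  refine ⟨⟨⟨lim, lim_inClass m hm, hv.symm⟩, ?_⟩, ⟨⟨lim, lim_inClassB m hm, hv.symm⟩, ?_⟩⟩
  · rintro _ ⟨f, hf, rfl⟩; exact hub f hf
  · rintro _ ⟨f, hf, rfl⟩; exact hub f hf.1

/-- **Main result.** -/
theorem result :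
    (∀ m : ℕ, 2 ≤ m → InClassB m lim) ∧
    (∀ m : ℕ, 4 ≤ m → ∀ x ∈ Set.Icc (0:ℝ) 1,
      ∃ v : ℝ, IsLUB (valuesB m x) v ∧ lim x ≤ v ∧ v ≤ lim x + 4 / m) ∧
    (∀ m : ℕ, 20 ≤ m → ∃ x ∈ Set.Icc (0:ℝ) 1, ∃ v : ℝ, IsLUB (valuesB m x) v ∧
      lim x + 1 / (6 * m) ≤ v) ∧
    (∀ m : ℕ, 10 ≤ m → ∀ x : ℝ, |x - 1 / 2| ≤ 1 / 20 →
      ∃ v : ℝ, IsLUB (valuesB m x) v ∧ 1 + nn (m * x) / (3 * m) ≤ v ∧
        v ≤ 1 + (lim (Int.fract (m * x)) + 4 / m) / m) ∧
    (∀ m k : ℕ, 2 ≤ m → 1 / 4 ≤ (k:ℝ) / m → (k:ℝ) / m ≤ 3 / 4 →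
      IsGreatest (values m ((k:ℝ) / m)) 1 ∧ IsGreatest (valuesB m ((k:ℝ) / m)) 1) ∧
    (∀ m n k : ℕ, 2 ≤ m → 2 ≤ n → ((n:ℝ) / ((n:ℝ) + 1)) ^ (n + 1) ≤ (k:ℝ) / m →
      (k:ℝ) / m ≤ (((n:ℝ) - 1) / n) ^ (n - 1) →
      (IsGreatest (values m (((k:ℝ) / m) ^ n)) (n * ((k:ℝ) / m) ^ (n - 1)) ∧
        IsGreatest (valuesB m (((k:ℝ) / m) ^ n)) (n * ((k:ℝ) / m) ^ (n - 1))) ∧
      (IsGreatest (values m (1 - ((k:ℝ) / m) ^ n)) (n * ((k:ℝ) / m) ^ (n - 1)) ∧
        IsGreatest (valuesB m (1 - ((k:ℝ) / m) ^ n)) (n * ((k:ℝ) / m) ^ (n - 1)))) := by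
  have hnear : ∀ m : ℕ, 10 ≤ m → ∀ x : ℝ, |x - 1 / 2| ≤ 1 / 20 →
      ∃ v : ℝ, IsLUB (valuesB m x) v ∧ 1 + nn (m * x) / (3 * m) ≤ v ∧
        v ≤ 1 + (lim (Int.fract (m * x)) + 4 / m) / m := by
    intro m hm x hx
    have hm0 : (0:ℝ) < m := by exact_mod_cast (by omega : 0 < m)
    have h1 := (abs_le.mp hx).1
    have h2 := (abs_le.mp hx).2
    have hne : (valuesB m x).Nonempty := ⟨_, lim, lim_inClassB m (by omega), rfl⟩
    have hub : ∀ y ∈ valuesB m x, y ≤ 1 + (lim (Int.fract (m * x)) + 4 / m) / m := by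
      rintro _ ⟨f, hf, rfl⟩
      have h3 := frac_step (by omega) hf.1 (z := x) ⟨by linarith, by linarith⟩
      have h4 := upper_lim (by omega) hf (x := Int.fract (m * x))
        ⟨Int.fract_nonneg _, (Int.fract_lt_one _).le⟩
      have h5 := div_le_div_of_nonneg_right h4 hm0.le
      linarith
    refine ⟨sSup (valuesB m x), isLUB_csSup hne ⟨_, hub⟩, ?_, csSup_le hne hub⟩
    apply le_csSup ⟨_, hub⟩
    refine ⟨fun x => lim x + bump m x, bumped_inClassB m (by omega), ?_⟩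
    simp only
    rw [bump_eq hm hx, lim_mid (by linarith) (by linarith)]
  refine ⟨fun m hm => lim_inClassB m (by omega), ?_, ?_, hnear, ?_, ?_⟩
  · intro m hm x hx
    have hne : (valuesB m x).Nonempty := ⟨_, lim, lim_inClassB m (by omega), rfl⟩
    have hub : ∀ y ∈ valuesB m x, y ≤ lim x + 4 / m := by
      rintro _ ⟨f, hf, rfl⟩
      exact upper_lim hm hf hx
    refine ⟨sSup (valuesB m x), isLUB_csSup hne ⟨_, hub⟩, ?_, csSup_le hne hub⟩
    exact le_csSup ⟨_, hub⟩ ⟨lim, lim_inClassB m (by omega), rfl⟩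
  · intro m hm
    have hm0 : (0:ℝ) < m := by exact_mod_cast (by omega : 0 < m)
    have hm20 : (20:ℝ) ≤ m := by exact_mod_cast hm
    obtain ⟨k, hk⟩ : ∃ k : ℕ, k = m / 2 := ⟨_, rfl⟩
    have hk1 : 2 * k ≤ m := by omega
    have hk2 : m ≤ 2 * k + 1 := by omega
    have hk1' : 2 * (k:ℝ) ≤ m := by exact_mod_cast hk1
    have hk2' : (m:ℝ) ≤ 2 * k + 1 := by exact_mod_cast hk2
    obtain ⟨x, hx⟩ : ∃ x : ℝ, x = (2 * k + 1) / (2 * m) := ⟨_, rfl⟩
    have hxm : (m:ℝ) * x = (2 * k + 1) / 2 := by rw [hx]; field_simp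
    have hxa : |x - 1 / 2| ≤ 1 / 20 := by
      have e : x - 1 / 2 = (2 * k + 1 - m) / (2 * m) := by rw [hx]; field_simp
      rw [e, abs_of_nonneg (div_nonneg (by linarith) (by linarith)), div_le_iff₀ (by linarith)]
      linarith
    obtain ⟨v, hv, hv1, _⟩ := hnear m (by omega) x hxa
    have h1 := (abs_le.mp hxa).1
    have h2 := (abs_le.mp hxa).2
    refine ⟨x, ⟨by linarith, by linarith⟩, v, hv, ?_⟩
    rw [lim_mid (by linarith) (by linarith)]
    have hnn : 1 / 2 ≤ nn (m * x) := by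
      unfold nn
      rw [hxm]
      obtain ⟨z, hz⟩ : ∃ z : ℤ, z = round ((2 * (k:ℝ) + 1) / 2) := ⟨_, rfl⟩
      rw [← hz]
      have e : (2 * (k:ℝ) + 1) / 2 - (z:ℝ) = ((2 * (k:ℤ) + 1 - 2 * z : ℤ) : ℝ) / 2 := by
        push_cast; ring
      rw [e, abs_div, abs_two]
      have h3 : (1:ℝ) ≤ |((2 * (k:ℤ) + 1 - 2 * z : ℤ) : ℝ)| := by
        rw [← Int.cast_abs]
        have : (1:ℤ) ≤ |2 * (k:ℤ) + 1 - 2 * z| := Int.one_le_abs (by omega)
        exact_mod_cast this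
      linarith
    have h4 : 1 / (6 * (m:ℝ)) ≤ nn (m * x) / (3 * m) := by
      rw [div_le_div_iff₀ (by positivity) (by positivity)]
      nlinarith
    linarith
  · intro m k hm h1 h2
    have hm0 : (0:ℝ) < m := by exact_mod_cast (by omega : 0 < m)
    have hk : k ≤ m := by
      rw [div_le_iff₀ hm0] at h2
      have : (k:ℝ) ≤ m := by linarith
      exact_mod_cast this
    apply greatest (by omega) (lim_mid h1 h2)
    intro f hf
    have := exact_up (by omega) hf k hk 0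
    simpa using this
  · intro m n k hm hn h1 h2
    have hm0 : (0:ℝ) < m := by exact_mod_cast (by omega : 0 < m)
    have h0 : 0 < (k:ℝ) / m := lt_of_lt_of_le (by positivity) h1
    have hhalf := window_le_half n hn h2
    have hk : k ≤ m := by
      rw [div_le_iff₀ hm0] at hhalf
      have : (k:ℝ) ≤ m := by linarith
      exact_mod_cast this
    have hv := lim_window n hn h0 h1 h2
    have hup : ∀ f, InClass m f → f (((k:ℝ) / m) ^ n) ≤ n * ((k:ℝ) / m) ^ (n - 1) := by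
      intro f hf
      have := exact_up (by omega) hf k hk (n - 1)
      have e : n - 1 + 1 = n := by omega
      have e2 : ((n - 1 : ℕ):ℝ) + 1 = n := by
        rw [Nat.cast_sub (by omega)]; simp
      rw [e, e2] at this
      exact this
    refine ⟨greatest (by omega) hv hup, greatest (by omega) (by rw [lim_symm]; exact hv) ?_⟩
    intro f hf
    have := hup _ (inClass_symm (by omega) hf)
    exact this

end Pool.Agent.Results.MP_13a5e6_an.UniformAsymptotics
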